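import Mathlib
import Pool.Graph.R_seed8.R328.PG

/-!
# Integer polynomials of Mahler measure one
-/

set_option autoImplicit false

open Finset Polynomial Pool.Agent.H388SL Pool.Agent.Y947.DL Pool.Agent.R328

namespace Pool.Agent.H448.CY

lemma MM_one : MM (1 : ℤ[X]) = 1 := by
  rw [MM, Polynomial.map_one, mahlerMeasure_one]

lemma MM_X : MM (X : ℤ[X]) = 1 := by
  rw [MM, Polynomial.map_X]
  have := mahlerMeasure_X_sub_C 0
  simpa using this

lemma MM_cyc (n : ℕ) : MM (cyclotomic n ℤ) = 1 := cyclotomic_mahlerMeasure_eq_one (R := ℤ) n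

lemma MM_pow (f : ℤ[X]) (k : ℕ) : MM (f ^ k) = MM f ^ k := by
  induction k with
  | zero => rw [pow_zero, pow_zero, MM_one]
  | succ k ih => rw [pow_succ, pow_succ, MM_mul, ih]

lemma MM_ne_zero {f : ℤ[X]} (h : 1 ≤ MM f) : f ≠ 0 := by
  rintro rfl
  rw [MM, Polynomial.map_zero, mahlerMeasure_zero] at h
  linarith

/-- induction over integer polynomials of Mahler measure one -/
theorem one_induction {P : ℤ[X] → Prop} (hu : ∀ u : ℤ[X], IsUnit u → P u)
    (hX : ∀ a : ℤ[X], MM a = 1 → P a → P (X * a))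
    (hc : ∀ (n : ℕ) (a : ℤ[X]), 0 < n → MM a = 1 → P a → P (cyclotomic n ℤ * a))
    (p : ℤ[X]) (hp : MM p = 1) : P p := by
  have ind : ∀ d : ℕ, ∀ p : ℤ[X], p.natDegree = d → MM p = 1 → P p := by
    intro d
    induction d using Nat.strong_induction_on with
    | _ d ih =>
      intro p hd hp
      have hp0 : p ≠ 0 := MM_ne_zero hp.ge
      by_cases hX1 : X ∣ p
      · obtain ⟨a, rfl⟩ := hX1
        have ha0 : a ≠ 0 := by
          rintro rfl
          exact hp0 (mul_zero _)
        have ha : MM a = 1 := by rwa [MM_mul, MM_X, one_mul] at hp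
        apply hX a ha
        apply ih a.natDegree _ a rfl ha
        rw [← hd, natDegree_X_mul ha0]
        omega
      · by_cases hdeg : p.degree = 0
        · apply hu
          have h1 : |p.leadingCoeff| = 1 := abs_leadingCoeff_eq_one_of_mahlerMeasure_eq_one hp
          rw [Polynomial.eq_C_of_degree_eq_zero hdeg, Polynomial.isUnit_C, Int.isUnit_iff]
          have h2 : p.leadingCoeff = p.coeff 0 := by
            have h3 : p.natDegree = 0 := natDegree_eq_of_degree_eq_some hdeg
            rw [leadingCoeff, h3]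
          rw [h2] at h1
          exact (abs_eq (by norm_num)).mp h1
        · obtain ⟨n, hn, a, rfl⟩ := cyclotomic_dvd_of_mahlerMeasure_eq_one hp hX1 hdeg
          have ha0 : a ≠ 0 := by
            rintro rfl
            exact hp0 (mul_zero _)
          have ha : MM a = 1 := by rwa [MM_mul, MM_cyc, one_mul] at hp
          apply hc n a hn ha
          apply ih a.natDegree _ a rfl ha
          rw [← hd, natDegree_mul (cyclotomic_ne_zero n ℤ) ha0, natDegree_cyclotomic]
          have := Nat.totient_pos.mpr hn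
          omega
  exact ind _ p rfl hp

/-- the product `P(-X) P(X²) P(-X²)` -/
noncomputable def WW (P : ℤ[X]) : ℤ[X] :=
  P.comp (-X) * expand ℤ 2 P * expand ℤ 2 (P.comp (-X))

lemma WW_mul (P Q : ℤ[X]) : WW (P * Q) = WW P * WW Q := by
  unfold WW
  rw [mul_comp, map_mul, map_mul]
  ring

lemma WW_pow (P : ℤ[X]) (k : ℕ) : WW (P ^ k) = WW P ^ k := by
  induction k with
  | zero => simp [WW]
  | succ k ih => rw [pow_succ, pow_succ, WW_mul, ih]

lemma WW_aeval (P : ℤ[X]) {A : Type*} [CommRing A] (z : A) :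
    aeval z (WW P) = aeval (-z) P * aeval (z ^ 2) P * aeval (-z ^ 2) P := by
  unfold WW
  rw [map_mul, map_mul, aeval_comp, expand_aeval, expand_aeval, aeval_comp]
  simp

lemma isUnit_WW {u : ℤ[X]} (hu : IsUnit u) : IsUnit (WW u) := by
  obtain ⟨r, hr, rfl⟩ := Polynomial.isUnit_iff.mp hu
  unfold WW
  rw [C_comp, expand_C]
  have h : IsUnit (C r : ℤ[X]) := Polynomial.isUnit_C.mpr hr
  exact (h.mul h).mul h

lemma sq_eq_one_iff_of_eq {x : ℂ} (h : x ^ 2 = 1) : x = 1 ∨ x = -1 := by
  have h1 : (x - 1) * (x + 1) = 0 := by ring_nf; rw [h]; ring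
  rcases mul_eq_zero.mp h1 with h2 | h2
  · left; exact sub_eq_zero.mp h2
  · right; exact eq_neg_of_add_eq_zero_left h2

/-- one of `-ζ`, `ζ²`, `-ζ²` is again a primitive root of unity of the same order -/
lemma prim_cases {n : ℕ} (hn : 0 < n) {ζ : ℂ} (h : IsPrimitiveRoot ζ n) :
    IsPrimitiveRoot (-ζ) n ∨ IsPrimitiveRoot (ζ ^ 2) n ∨ IsPrimitiveRoot (-ζ ^ 2) n := by
  rcases Nat.even_or_odd n with he | ho
  · obtain ⟨k, hk⟩ := he
    have hk0 : 0 < k := by omega
    have hneg : ζ ^ k = -1 := by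
      have h1 : (ζ ^ k) ^ 2 = 1 := by
        rw [← pow_mul]
        have : k * 2 = n := by omega
        rw [this]; exact h.pow_eq_one
      have h2 : ζ ^ k ≠ 1 := h.pow_ne_one_of_pos_of_lt hk0.ne' (by omega)
      rcases sq_eq_one_iff_of_eq h1 with h3 | h3
      · exact absurd h3 h2
      · exact h3
    rcases Nat.even_or_odd k with hke | hko
    · left
      have e : -ζ = ζ ^ (k + 1) := by rw [pow_succ, hneg]; ring
      rw [e]
      apply h.pow_of_coprime
      have ho : Odd (k + 1) := hke.add_one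
      have h3 : Nat.Coprime (k + 1) 2 := (Nat.coprime_two_right).mpr ho
      have h4 : Nat.Coprime (k + 1) k := by simp
      have : n = 2 * k := by omega
      rw [this]
      exact Nat.Coprime.mul_right h3 h4
    · right; right
      have e : -ζ ^ 2 = ζ ^ (k + 2) := by rw [pow_add, hneg]; ring
      rw [e]
      apply h.pow_of_coprime
      have ho : Odd (k + 2) := by
        obtain ⟨j, hj⟩ := hko
        exact ⟨j + 1, by omega⟩
      have h3 : Nat.Coprime (k + 2) 2 := (Nat.coprime_two_right).mpr ho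
      have h4 : Nat.Coprime (k + 2) k := by
        have h5 : Nat.Coprime 2 k := (Nat.coprime_two_left).mpr hko
        rw [add_comm]
        exact (Nat.coprime_add_self_left).mpr h5
      have : n = 2 * k := by omega
      rw [this]
      exact Nat.Coprime.mul_right h3 h4
  · right; left
    exact h.pow_of_coprime 2 ((Nat.coprime_two_left).mpr ho)

lemma cyc_dvd_WW {n : ℕ} (hn : 0 < n) : cyclotomic n ℤ ∣ WW (cyclotomic n ℤ) := by
  have hprim := Complex.isPrimitiveRoot_exp n hn.ne'
  set ζ := Complex.exp (2 * Real.pi * Complex.I / n) with hζ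
  rw [cyclotomic_eq_minpoly hprim hn]
  apply minpoly.isIntegrallyClosed_dvd (hprim.isIntegral hn)
  rw [← cyclotomic_eq_minpoly hprim hn, WW_aeval]
  have key : ∀ w : ℂ, IsPrimitiveRoot w n → aeval w (cyclotomic n ℤ) = 0 := by
    intro w hw
    have : NeZero (n : ℂ) := ⟨by exact_mod_cast hn.ne'⟩
    have h1 : (cyclotomic n ℂ).IsRoot w := isRoot_cyclotomic_iff.mpr hw
    rw [aeval_def, ← eval_map, map_cyclotomic]
    exact h1
  rcases prim_cases hn hprim with h | h | h
  · rw [key _ h]; ring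
  · rw [key _ h]; ring
  · rw [key _ h]; ring

/-- polynomials of Mahler measure one divide `P(-X) P(X²) P(-X²)` -/
theorem dvd_WW (p : ℤ[X]) (hp : MM p = 1) : p ∣ WW p := by
  apply one_induction (P := fun p => p ∣ WW p) _ _ _ p hp
  · intro u hu
    exact hu.dvd
  · intro a _ ha
    rw [WW_mul]
    apply mul_dvd_mul _ ha
    unfold WW
    rw [X_comp]
    exact Dvd.dvd.mul_right (Dvd.dvd.mul_right (by rw [dvd_neg]) _) _
  · intro n a hn _ ha
    rw [WW_mul]
    exact mul_dvd_mul (cyc_dvd_WW hn) ha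

lemma MM_comp_neg (p : ℤ[X]) : MM (p.comp (-X)) = MM p := by
  by_cases hp : p = 0
  · rw [hp, zero_comp]
  have h1 : (p.comp (-X)).map (Int.castRingHom ℂ) = (p.map (Int.castRingHom ℂ)).comp (-X) := by
    rw [Polynomial.map_comp]
    simp
  rw [MM, h1, MM]
  set P := p.map (Int.castRingHom ℂ) with hP
  have h2 := (IsAlgClosed.splits P).eq_prod_roots
  have h3 : P.comp (-X) = C P.leadingCoeff * (P.roots.map (fun a => -(X - C (-a)))).prod := by
    nth_rewrite 1 [h2]
    rw [mul_comp, C_comp, multiset_prod_comp, Multiset.map_map]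
    congr 2
    refine Multiset.map_congr rfl fun a _ => ?_
    simp only [Function.comp_apply, sub_comp, X_comp, C_comp, C_neg]
    ring
  have h5 : P.mahlerMeasure = (C P.leadingCoeff * (P.roots.map (fun x => X - C x)).prod).mahlerMeasure := by
    rw [← h2]
  rw [h3, h5, mahlerMeasure_mul, prod_mahlerMeasure_eq_mahlerMeasure_prod, Multiset.map_map,
    mahlerMeasure_mul, prod_mahlerMeasure_eq_mahlerMeasure_prod, Multiset.map_map]
  congr 2
  refine Multiset.map_congr rfl fun a _ => ?_
  rw [Function.comp_apply, Function.comp_apply, mahlerMeasure_X_sub_C]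
  have h4 : -((X : ℂ[X]) - C (-a)) = C (-1) * (X - C (-a)) := by simp
  rw [h4, mahlerMeasure_mul, mahlerMeasure_const, mahlerMeasure_X_sub_C, norm_neg]
  simp

lemma natDegree_comp_neg (p : ℤ[X]) : (p.comp (-X)).natDegree = p.natDegree := by
  rw [natDegree_comp, natDegree_neg, natDegree_X, mul_one]

lemma MM_WW (p : ℤ[X]) : MM (WW p) = MM p ^ 3 := by
  unfold WW
  rw [MM_mul, MM_mul, MM_expand (by norm_num), MM_expand (by norm_num), MM_comp_neg]
  ring

lemma comp_neg_ne {p : ℤ[X]} (hp : p ≠ 0) : p.comp (-X) ≠ 0 := by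
  intro h
  rw [comp_eq_zero_iff] at h
  rcases h with h | ⟨_, h⟩
  · exact hp h
  · have h1 := congrArg natDegree h
    rw [natDegree_neg, natDegree_X, natDegree_C] at h1
    omega

lemma expand_ne {p : ℤ[X]} (hp : p ≠ 0) {q : ℕ} (hq : 0 < q) : expand ℤ q p ≠ 0 :=
  (expand_ne_zero hq).mpr hp

lemma WW_ne {p : ℤ[X]} (hp : p ≠ 0) : WW p ≠ 0 :=
  mul_ne_zero (mul_ne_zero (comp_neg_ne hp) (expand_ne hp (by norm_num)))
    (expand_ne (comp_neg_ne hp) (by norm_num))

lemma natDegree_WW {p : ℤ[X]} (hp : p ≠ 0) : (WW p).natDegree = 5 * p.natDegree := by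
  unfold WW
  rw [natDegree_mul (mul_ne_zero (comp_neg_ne hp) (expand_ne hp (by norm_num)))
    (expand_ne (comp_neg_ne hp) (by norm_num)), natDegree_mul (comp_neg_ne hp) (expand_ne hp (by norm_num)),
    natDegree_expand, natDegree_expand, natDegree_comp_neg]
  ring

end Pool.Agent.H448.CY
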