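import Mathlib
import Pool.Agent.H448.CY.Cyc

/-!
# Power transforms of integer polynomials of Mahler measure one
-/

set_option autoImplicit false

open Finset Polynomial Pool.Agent.H388SL Pool.Agent.Y947.DL Pool.Agent.R328

namespace Pool.Agent.H448.CY

/-- the product of the absolute values at the rotated points -/
noncomputable def NN (q : ℕ) (P : ℤ[X]) (z : ℂ) : ℝ :=
  ∏ ω ∈ nthRootsFinset q (1:ℂ), ‖aeval (ω * z) P‖

lemma NN_mul (q : ℕ) (P Q : ℤ[X]) (z : ℂ) : NN q (P * Q) z = NN q P z * NN q Q z := by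
  unfold NN
  rw [← Finset.prod_mul_distrib]
  refine Finset.prod_congr rfl fun ω _ => ?_
  rw [map_mul, norm_mul]

lemma NN_pow (q : ℕ) (P : ℤ[X]) (k : ℕ) (z : ℂ) : NN q (P ^ k) z = NN q P z ^ k := by
  unfold NN
  rw [← Finset.prod_pow]
  refine Finset.prod_congr rfl fun ω _ => ?_
  rw [map_pow, norm_pow]

lemma NN_expand {q : ℕ} (hq : 0 < q) (g : ℤ[X]) (z : ℂ) :
    NN q (expand ℤ q g) z = ‖aeval (z ^ q) g‖ ^ q := by
  unfold NN
  have h1 : ∀ ω ∈ nthRootsFinset q (1:ℂ), ‖aeval (ω * z) (expand ℤ q g)‖ = ‖aeval (z ^ q) g‖ := by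
    intro ω hω
    rw [mem_nthRootsFinset hq] at hω
    rw [expand_aeval, mul_pow, hω, one_mul]
  rw [Finset.prod_congr rfl h1, Finset.prod_const, card_grid hq]

lemma aeval_cyc {n : ℕ} (hn : 0 < n) (w : ℂ) :
    aeval w (cyclotomic n ℤ) = ∏ μ ∈ primitiveRoots n ℂ, (w - μ) := by
  have h1 : aeval w (cyclotomic n ℤ) = (cyclotomic n ℂ).eval w := by
    rw [aeval_def, ← eval_map, map_cyclotomic]
  rw [h1, cyclotomic_eq_prod_X_sub_primitiveRoots (Complex.isPrimitiveRoot_exp n hn.ne'), eval_prod]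
  simp

lemma NN_cyc {q n : ℕ} (hq : 0 < q) (hn : 0 < n) (z : ℂ) :
    NN q (cyclotomic n ℤ) z = ∏ μ ∈ primitiveRoots n ℂ, ‖z ^ q - μ ^ q‖ := by
  unfold NN
  simp only [aeval_cyc hn, norm_prod]
  rw [Finset.prod_comm]
  refine Finset.prod_congr rfl fun μ _ => ?_
  have h1 := (Complex.isPrimitiveRoot_exp q hq.ne').pow_sub_pow_eq_prod_sub_mul μ z hq
  rw [norm_sub_rev, h1, norm_prod]
  refine Finset.prod_congr rfl fun ζ _ => ?_
  rw [norm_sub_rev]

lemma image_prim {q n : ℕ} (hn : 0 < n) (hqn : Nat.Coprime q n) :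
    (primitiveRoots n ℂ).image (fun μ => μ ^ q) = primitiveRoots n ℂ := by
  classical
  have hinj : Set.InjOn (fun μ : ℂ => μ ^ q) (primitiveRoots n ℂ) := by
    intro μ hμ ν hν h
    have h1 : IsPrimitiveRoot μ n := (mem_primitiveRoots hn).mp hμ
    have h2 : IsPrimitiveRoot ν n := (mem_primitiveRoots hn).mp hν
    have hν0 : ν ≠ 0 := h2.ne_zero hn.ne'
    have h3 : (μ / ν) ^ q = 1 := by
      have h4 : μ ^ q = ν ^ q := h
      rw [div_pow, h4, div_self (pow_ne_zero _ hν0)]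
    have h4 : (μ / ν) ^ n = 1 := by
      rw [div_pow, h1.pow_eq_one, h2.pow_eq_one, div_one]
    have h5 : (μ / ν) ^ Nat.gcd q n = 1 := pow_gcd_eq_one.mpr ⟨h3, h4⟩
    have h6 : Nat.gcd q n = 1 := hqn
    rw [h6, pow_one] at h5
    exact (div_eq_one_iff_eq hν0).mp h5
  apply Finset.eq_of_subset_of_card_le
  · intro ν hν
    rw [Finset.mem_image] at hν
    obtain ⟨μ, hμ, rfl⟩ := hν
    exact (mem_primitiveRoots hn).mpr (((mem_primitiveRoots hn).mp hμ).pow_of_coprime q hqn)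
  · rw [Finset.card_image_of_injOn hinj]

lemma NN_cyc_coprime {q n : ℕ} (hq : 0 < q) (hn : 0 < n) (hqn : Nat.Coprime q n) (z : ℂ) :
    NN q (cyclotomic n ℤ) z = ‖aeval (z ^ q) (cyclotomic n ℤ)‖ := by
  classical
  rw [NN_cyc hq hn, aeval_cyc hn, norm_prod]
  have h1 : ∏ ν ∈ primitiveRoots n ℂ, ‖z ^ q - ν‖ =
      ∏ ν ∈ (primitiveRoots n ℂ).image (fun μ => μ ^ q), ‖z ^ q - ν‖ := by
    rw [image_prim hn hqn]
  rw [h1]
  have hinj : Set.InjOn (fun μ : ℂ => μ ^ q) (primitiveRoots n ℂ) := by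
    apply Finset.injOn_of_card_image_eq
    rw [image_prim hn hqn]
  rw [Finset.prod_image hinj]

lemma NN_cyc_dvd {q k : ℕ} (hq : q.Prime) (hk : 0 < k) (hqk : ¬ q ∣ k) (z : ℂ) :
    NN q (cyclotomic (k * q) ℤ) z = ‖aeval (z ^ q) (cyclotomic k ℤ)‖ ^ (q - 1) := by
  have hexp := cyclotomic_expand_eq_cyclotomic_mul hq hqk ℤ
  have hco : Nat.Coprime q k := (Nat.Prime.coprime_iff_not_dvd hq).mpr hqk
  have h1 : NN q (cyclotomic (k * q) ℤ) z * ‖aeval (z ^ q) (cyclotomic k ℤ)‖ =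
      ‖aeval (z ^ q) (cyclotomic k ℤ)‖ ^ (q - 1) * ‖aeval (z ^ q) (cyclotomic k ℤ)‖ := by
    rw [← pow_succ, Nat.sub_add_cancel hq.one_le, ← NN_expand hq.pos, hexp, NN_mul,
      NN_cyc_coprime hq.pos hk hco]
  by_cases h0 : aeval (z ^ q) (cyclotomic k ℤ) = 0
  · have hq1 : q - 1 ≠ 0 := by
      have := hq.two_le
      omega
    rw [h0, norm_zero, zero_pow hq1]
    by_contra hne
    have hne' : ∀ ω ∈ nthRootsFinset q (1:ℂ), aeval (ω * z) (cyclotomic k ℤ) = 0 := by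
      intro ω hω
      have h2 : aeval (ω * z) (expand ℤ q (cyclotomic k ℤ)) = 0 := by
        rw [mem_nthRootsFinset hq.pos] at hω
        rw [expand_aeval, mul_pow, hω, one_mul, h0]
      rw [hexp, map_mul] at h2
      rcases mul_eq_zero.mp h2 with h3 | h3
      · exfalso
        apply hne
        unfold NN
        rw [Finset.prod_eq_zero hω (by rw [h3, norm_zero])]
      · exact h3
    have hpk : ∀ w : ℂ, aeval w (cyclotomic k ℤ) = 0 → IsPrimitiveRoot w k := by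
      intro w hw
      have : NeZero (k : ℂ) := ⟨by exact_mod_cast hk.ne'⟩
      apply isRoot_cyclotomic_iff.mp
      rw [aeval_def, ← eval_map, map_cyclotomic] at hw
      exact hw
    have hprim := Complex.isPrimitiveRoot_exp q hq.ne_zero
    set ω := Complex.exp (2 * Real.pi * Complex.I / q) with hω
    have e1 : (1:ℂ) ∈ nthRootsFinset q (1:ℂ) := (mem_nthRootsFinset hq.pos _).mpr (one_pow _)
    have e2 : ω ∈ nthRootsFinset q (1:ℂ) := (mem_nthRootsFinset hq.pos _).mpr hprim.pow_eq_one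
    have h3 := (hpk _ (hne' 1 e1)).pow_eq_one
    have h4 := (hpk _ (hne' ω e2)).pow_eq_one
    rw [one_mul] at h3
    rw [mul_pow, h3, mul_one] at h4
    exact hqk (hprim.dvd_of_pow_eq_one k h4)
  · exact mul_right_cancel₀ (norm_ne_zero_iff.mpr h0) h1

/-- the power transform of a polynomial of Mahler measure one -/
theorem exists_pow {q : ℕ} (hq : q.Prime) (p : ℤ[X]) (hp : MM p = 1) :
    ∃ D : ℤ[X], MM D = 1 ∧ D.natDegree = p.natDegree ∧ ∀ z : ℂ, ‖aeval (z ^ q) D‖ = NN q p z := by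
  apply one_induction (P := fun p => ∃ D : ℤ[X], MM D = 1 ∧ D.natDegree = p.natDegree ∧
    ∀ z : ℂ, ‖aeval (z ^ q) D‖ = NN q p z) _ _ _ p hp
  · intro u hu
    obtain ⟨r, hr, rfl⟩ := Polynomial.isUnit_iff.mp hu
    refine ⟨1, MM_one, by simp, ?_⟩
    intro z
    unfold NN
    simp only [aeval_C, map_one, norm_one]
    rw [Finset.prod_const]
    have h1 : ‖(algebraMap ℤ ℂ) r‖ = 1 := by
      rcases Int.isUnit_iff.mp hr with h5 | h5 <;> simp [h5]
    rw [h1, one_pow]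
  · rintro a ha ⟨D, hD1, hD2, hD3⟩
    have hD0 : D ≠ 0 := MM_ne_zero hD1.ge
    have ha0 : a ≠ 0 := MM_ne_zero ha.ge
    refine ⟨X * D, by rw [MM_mul, MM_X, hD1, one_mul], ?_, ?_⟩
    · rw [natDegree_X_mul hD0, natDegree_X_mul ha0, hD2]
    · intro z
      rw [map_mul, norm_mul, hD3, NN_mul]
      congr 1
      unfold NN
      have h1 : ∀ ω ∈ nthRootsFinset q (1:ℂ), ‖aeval (ω * z) (X : ℤ[X])‖ = ‖z‖ := by
        intro ω hω
        rw [aeval_X, norm_mul, norm_of_mem_grid hq.pos hω, one_mul]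
      rw [Finset.prod_congr rfl h1, Finset.prod_const, card_grid hq.pos, aeval_X, norm_pow]
  · rintro n a hn ha ⟨D, hD1, hD2, hD3⟩
    have hD0 : D ≠ 0 := MM_ne_zero hD1.ge
    have ha0 : a ≠ 0 := MM_ne_zero ha.ge
    -- the transform of a cyclotomic polynomial
    obtain ⟨E, hE1, hE2, hE3⟩ : ∃ E : ℤ[X], MM E = 1 ∧ E.natDegree = (cyclotomic n ℤ).natDegree ∧
        ∀ z : ℂ, ‖aeval (z ^ q) E‖ = NN q (cyclotomic n ℤ) z := by
      by_cases hqn : q ∣ n
      · obtain ⟨k, hk⟩ := hqn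
        have hk' : n = k * q := by rw [hk, mul_comm]
        have hk0 : 0 < k := by
          rcases Nat.eq_zero_or_pos k with h | h
          · rw [h] at hk; omega
          · exact h
        subst hk'
        by_cases hqk : q ∣ k
        · refine ⟨cyclotomic k ℤ ^ q, by rw [MM_pow, MM_cyc, one_pow], ?_, ?_⟩
          · rw [← cyclotomic_expand_eq_cyclotomic hq hqk ℤ, natDegree_expand, natDegree_pow, mul_comm]
          · intro z
            rw [← cyclotomic_expand_eq_cyclotomic hq hqk ℤ, NN_expand hq.pos, map_pow, norm_pow]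
        · refine ⟨cyclotomic k ℤ ^ (q - 1), by rw [MM_pow, MM_cyc, one_pow], ?_, ?_⟩
          · rw [natDegree_pow, natDegree_cyclotomic, natDegree_cyclotomic,
              Nat.totient_mul ((Nat.Prime.coprime_iff_not_dvd hq).mpr hqk).symm, Nat.totient_prime hq, mul_comm]
          · intro z
            rw [NN_cyc_dvd hq hk0 hqk, map_pow, norm_pow]
      · refine ⟨cyclotomic n ℤ, MM_cyc n, rfl, ?_⟩
        intro z
        rw [NN_cyc_coprime hq.pos hn ((Nat.Prime.coprime_iff_not_dvd hq).mpr hqn)]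
    have hE0 : E ≠ 0 := MM_ne_zero hE1.ge
    refine ⟨E * D, by rw [MM_mul, hE1, hD1, one_mul], ?_, ?_⟩
    · rw [natDegree_mul hE0 hD0, natDegree_mul (cyclotomic_ne_zero n ℤ) ha0, hE2, hD2]
    · intro z
      rw [map_mul, norm_mul, hE3, hD3, NN_mul]

end Pool.Agent.H448.CY
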