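import Mathlib
import Pool.Graph.R_seed8.R328.PH
import Pool.Agent.H448.CY.Pow

/-!
# Potentials of integer polynomials at contracted points
-/

set_option autoImplicit false

open Finset Polynomial Module Metric Pool.Agent.H388SL Pool.Agent.Y947.DL Pool.Agent.Y947.DM
  Pool.Agent.Y947.DP Pool.Agent.R328

namespace Pool.Agent.H448.CY

/-- logarithmic potential of the reflected zeros of an integer polynomial -/
noncomputable def LP (P : ℤ[X]) (y : ℂ) : ℝ :=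
  ((P.map (Int.castRingHom ℂ)).roots.map
    (fun γ => Real.log ‖1 - y * starRingEnd ℂ (H388SL.refl γ)‖)).sum

lemma map_ne {P : ℤ[X]} (hP : P ≠ 0) : P.map (Int.castRingHom ℂ) ≠ 0 :=
  (Polynomial.map_ne_zero_iff (Int.castRingHom ℂ).injective_int).mpr hP

lemma LP_mul {P Q : ℤ[X]} (hP : P ≠ 0) (hQ : Q ≠ 0) (y : ℂ) : LP (P * Q) y = LP P y + LP Q y := by
  unfold LP
  rw [Polynomial.map_mul, roots_mul (mul_ne_zero (map_ne hP) (map_ne hQ)), Multiset.map_add,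
    Multiset.sum_add]

lemma LP_one (y : ℂ) : LP 1 y = 0 := by
  unfold LP
  simp

lemma LP_pow {P : ℤ[X]} (hP : P ≠ 0) (k : ℕ) (y : ℂ) : LP (P ^ k) y = k * LP P y := by
  induction k with
  | zero => rw [pow_zero, LP_one]; simp
  | succ k ih =>
    rw [pow_succ, LP_mul (pow_ne_zero _ hP) hP, ih]
    push_cast
    ring

/-- the zeros as a family -/
lemma exists_fam {P : ℤ[X]} (hP : P ≠ 0) : ∃ γ : Fin P.natDegree → ℂ,
    (∀ z : ℂ, aeval z P = GV ((P.leadingCoeff : ℤ) : ℂ) γ z) ∧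
    MM P = ‖((P.leadingCoeff : ℤ) : ℂ)‖ * ∏ k, max 1 ‖γ k‖ ∧
    ∀ y : ℂ, LP P y = ∑ k, Real.log ‖1 - y * starRingEnd ℂ (H388SL.refl (γ k))‖ := by
  obtain ⟨γ, hγ⟩ := exists_roots P
  have hlc : ((P.leadingCoeff : ℤ) : ℂ) ≠ 0 := by
    exact_mod_cast leadingCoeff_ne_zero.mpr hP
  have hmap : P.map (Int.castRingHom ℂ) = C ((P.leadingCoeff : ℤ) : ℂ) * ∏ k, (X - C (γ k)) := by
    apply Polynomial.funext
    intro z
    rw [GV_eval, ← hγ z, aeval_def, eval_map]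
    rfl
  refine ⟨γ, hγ, ?_, ?_⟩
  · rw [MM, hmap, mahlerMeasure_mul, mahlerMeasure_const]
    congr 1
    rw [Finset.prod_eq_multiset_prod, prod_mahlerMeasure_eq_mahlerMeasure_prod, Multiset.map_map,
      Finset.prod_eq_multiset_prod]
    congr 1
    refine Multiset.map_congr rfl fun τ _ => ?_
    rw [Function.comp_apply, mahlerMeasure_X_sub_C]
  · intro y
    unfold LP
    have h1 : (P.map (Int.castRingHom ℂ)).roots = (Finset.univ : Finset (Fin P.natDegree)).val.map γ := by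
      rw [hmap, roots_C_mul _ hlc]
      have h2 : (∏ k, (X - C (γ k)) : ℂ[X]) =
          (((Finset.univ : Finset (Fin P.natDegree)).val.map γ).map (fun a => X - C a)).prod := by
        rw [Multiset.map_map]
        rfl
      rw [h2, roots_multiset_prod_X_sub_C]
    rw [h1, Multiset.map_map]
    rfl

lemma one_le_MM' {P : ℤ[X]} (hP : P ≠ 0) : 1 ≤ MM P := one_le_MM hP

section upper

variable {ι : Type*} [Fintype ι] [Nonempty ι]

lemma avg_GP_le {P : ℤ[X]} (hP : P ≠ 0) {γ : Fin P.natDegree → ℂ}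
    (h1 : ∀ z : ℂ, aeval z P = GV ((P.leadingCoeff : ℤ) : ℂ) γ z)
    (h2 : MM P = ‖((P.leadingCoeff : ℤ) : ℂ)‖ * ∏ k, max 1 ‖γ k‖) :
    Real.circleAverage (GP (fun k => H388SL.refl (γ k))) 0 1 ≤ mp P := by
  unfold mp
  apply Real.circleAverage_mono
  · exact ContinuousOn.circleIntegrable' (GP_cont _).continuousOn
  · exact ContinuousOn.circleIntegrable' (posLog_cont P).continuousOn
  · intro z hz
    rw [mem_sphere_zero_iff_norm, abs_one] at hz
    apply Real.posLog_le_posLog (norm_nonneg _)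
    rw [h1, norm_GV_factor _ _ hz, ← h2]
    exact le_mul_of_one_le_right (norm_nonneg _) (one_le_MM hP)

/-- upper bound for the sum of the potential of a polynomial -/
lemma sum_LP_le {x : ι → ℂ} (hx : ∀ i, ‖x i‖ < 1) {D : ℝ} (hD0 : 0 ≤ D)
    (hD : ∀ i, ∑ j, PK (x i * starRingEnd ℂ (x j)) ≤ D) {R : ℝ} (hR0 : 0 < R) (hR1 : R < 1)
    {P : ℤ[X]} (hP : P ≠ 0) : ∑ j, LP P ((R : ℂ) * x j) ≤ 4 * D * mp P := by
  obtain ⟨γ, h1, h2, h3⟩ := exists_fam hP
  set g : Fin P.natDegree → ℂ := fun k => H388SL.refl (γ k) with hg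
  have hg1 : ∀ k, ‖g k‖ ≤ 1 := fun k => norm_refl_le _
  have hs := PI_sum_le hx hD hR0 (gg_CS hg1 hR0 hR1) (fun ζ _ => le_max_left _ _)
  have hav := (avg_le_one hg1 hR0 hR1).trans (avg_GP_le hP h1 h2)
  have h4 : ∑ j, LP P ((R : ℂ) * x j) ≤ ∑ j, PI R (gg g) ((R : ℂ) * x j) := by
    apply Finset.sum_le_sum
    intro j _
    have hw : (R : ℂ) * x j ∈ ball (0:ℂ) R := by
      rw [mem_ball_zero_iff, norm_mul, Complex.norm_real, Real.norm_of_nonneg hR0.le]
      nlinarith [hx j]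
    have e1 : LP P ((R : ℂ) * x j) = -HH 0 g ((R : ℂ) * x j) := by
      rw [h3]; unfold HH; ring
    rw [e1, ← PI_HH hg1 hR0 hR1 hw]
    exact PI_mono (HH_CS hg1 hR0 hR1).neg (gg_CS hg1 hR0 hR1) hw (fun z _ => le_max_right _ _)
  calc ∑ j, LP P ((R : ℂ) * x j) ≤ 4 * D * Real.circleAverage (gg g) 0 R := h4.trans hs
    _ ≤ 4 * D * mp P := mul_le_mul_of_nonneg_left hav (by positivity)

/-- upper bound for the sum of the negative of the potential of a polynomial -/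
lemma sum_neg_LP_le {x : ι → ℂ} (hx : ∀ i, ‖x i‖ < 1) {D : ℝ} (hD0 : 0 ≤ D)
    (hD : ∀ i, ∑ j, PK (x i * starRingEnd ℂ (x j)) ≤ D) {R : ℝ} (hR0 : 0 < R) (hR1 : R < 1)
    {P : ℤ[X]} (hP : P ≠ 0) : -∑ j, LP P ((R : ℂ) * x j) ≤ 4 * D * mp P := by
  obtain ⟨γ, h1, h2, h3⟩ := exists_fam hP
  set g : Fin P.natDegree → ℂ := fun k => H388SL.refl (γ k) with hg
  have hg1 : ∀ k, ‖g k‖ ≤ 1 := fun k => norm_refl_le _
  set e : Fin 0 → ℂ := fun _ => 0 with he
  have he1 : ∀ k, ‖e k‖ ≤ 1 := fun k => k.elim0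
  have hbg : ∀ (j : Fin P.natDegree) (k : Fin 0), g j * starRingEnd ℂ (e k) ≠ 1 := fun j k => k.elim0
  have hs := PI_sum_le hx hD hR0 (ph_CS hg1 he1 1 hR0 hR1) (fun ζ _ => le_max_left _ _)
  have hMx : Mx 1 g e = GP g := by
    ext z
    unfold Mx GP Pr
    rw [Real.posLog_eq_log_max_one (norm_nonneg _), pow_one, max_comm]
    simp
  have hav := avg_ph hg1 he1 1 hbg hR0 hR1
  rw [hMx] at hav
  have hav2 := hav.trans (avg_GP_le hP h1 h2)
  have h4 : -∑ j, LP P ((R : ℂ) * x j) ≤ ∑ j, PI R (ph 1 g e) ((R : ℂ) * x j) := by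
    rw [← Finset.sum_neg_distrib]
    apply Finset.sum_le_sum
    intro j _
    have hw : (R : ℂ) * x j ∈ ball (0:ℂ) R := by
      rw [mem_ball_zero_iff, norm_mul, Complex.norm_real, Real.norm_of_nonneg hR0.le]
      nlinarith [hx j]
    have h5 := ph_dom hg1 he1 1 hR0 hR1 hw
    have e1 : HH 0 e ((R : ℂ) * x j) = 0 := by unfold HH; simp
    have e2 : LP P ((R : ℂ) * x j) = -HH 0 g ((R : ℂ) * x j) := by
      rw [h3]; unfold HH; ring
    rw [e1] at h5
    rw [e2]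
    push_cast at h5
    linarith
  calc -∑ j, LP P ((R : ℂ) * x j) ≤ 4 * D * Real.circleAverage (ph 1 g e) 0 R := h4.trans hs
    _ ≤ 4 * D * mp P := mul_le_mul_of_nonneg_left hav2 (by positivity)

end upper

section lower

variable {K : Type} [Field K] [NumberField K]

/-- lower bound for the sum of the potential of a polynomial that does not vanish at `α` -/
lemma sum_LP_ge {α : K} (hα : IsIntegral ℤ α) {P : ℤ[X]} (hPα : aeval α P ≠ 0)
    {ρ : (K →ₐ[ℚ] ℂ) → ℝ} (hρ : ∀ σ, 0 < ρ σ ∧ ρ σ ≤ 1 / 4) {R : ℝ} (hR0 : 0 < R) (hR1 : R < 1) :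
    -(finrank ℚ K * Real.log (MM P) +
        P.natDegree * (lam α + ∑ σ, ρ σ + finrank ℚ K * (1 - R))) ≤
      ∑ σ : K →ₐ[ℚ] ℂ, LP P ((R : ℂ) * (((1 - ρ σ : ℝ) : ℂ) * H388SL.refl (σ α))) := by
  have hP : P ≠ 0 := by
    rintro rfl
    exact hPα (map_zero _)
  obtain ⟨γ, h1, h2, h3⟩ := exists_fam hP
  have hcard : Fintype.card (K →ₐ[ℚ] ℂ) = finrank ℚ K := AlgHom.card ℚ K ℂ
  have hlc : (0:ℝ) < ‖((P.leadingCoeff : ℤ) : ℂ)‖ := by
    rw [norm_pos_iff]
    exact_mod_cast leadingCoeff_ne_zero.mpr hP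
  have hval : ∀ σ : K →ₐ[ℚ] ℂ, aeval (σ α) P ≠ 0 := by
    intro σ h0
    rw [← map_aevalZ] at h0
    exact hPα ((map_eq_zero σ).mp h0)
  have hne : ∀ (σ : K →ₐ[ℚ] ℂ) k, σ α ≠ γ k := by
    intro σ k hk
    apply hval σ
    rw [h1]
    unfold GV
    rw [Finset.prod_eq_zero (Finset.mem_univ k) (sub_eq_zero.mpr hk), mul_zero]
  have hterm : ∀ σ ∈ (Finset.univ : Finset (K →ₐ[ℚ] ℂ)),
      Real.log ‖aeval (σ α) P‖ - Real.log (MM P) - P.natDegree * (Real.log (max 1 ‖σ α‖) + ρ σ + (1 - R)) ≤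
        LP P ((R : ℂ) * (((1 - ρ σ : ℝ) : ℂ) * H388SL.refl (σ α))) := by
    intro σ _
    have hσ := hρ σ
    have h4 : ∀ k ∈ (Finset.univ : Finset (Fin P.natDegree)),
        Real.log ‖σ α - γ k‖ - Real.log (max 1 ‖γ k‖) - (Real.log (max 1 ‖σ α‖) + ρ σ + (1 - R)) ≤
        Real.log ‖1 - (R : ℂ) * (((1 - ρ σ : ℝ) : ℂ) * H388SL.refl (σ α)) *
          starRingEnd ℂ (H388SL.refl (γ k))‖ := by
      intro k _
      have h5 := pair_le (σ α) (γ k)
      have h6 : 0 < ‖σ α - γ k‖ := norm_pos_iff.mpr (sub_ne_zero.mpr (hne σ k))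
      have hw1 : H388SL.refl (σ α) * starRingEnd ℂ (H388SL.refl (γ k)) ≠ 1 := by
        intro hw
        rw [hw, sub_self, norm_zero, mul_zero] at h5
        linarith
      have hwn : ‖H388SL.refl (σ α) * starRingEnd ℂ (H388SL.refl (γ k))‖ ≤ 1 := by
        rw [norm_mul, RCLike.norm_conj]
        exact mul_le_one₀ (norm_refl_le _) (norm_nonneg _) (norm_refl_le _)
      have h7 := log_mono1 (s := R * (1 - ρ σ)) (mul_nonneg hR0.le (by linarith)) (by nlinarith) hwn hw1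
      have h8 := Real.log_le_log h6 h5
      have m1 : (0:ℝ) < max 1 ‖σ α‖ := lt_of_lt_of_le one_pos (le_max_left _ _)
      have m2 : (0:ℝ) < max 1 ‖γ k‖ := lt_of_lt_of_le one_pos (le_max_left _ _)
      have m3 : 0 < ‖1 - H388SL.refl (σ α) * starRingEnd ℂ (H388SL.refl (γ k))‖ :=
        norm_pos_iff.mpr (sub_ne_zero.mpr (Ne.symm hw1))
      rw [Real.log_mul (by positivity) m3.ne', Real.log_mul m1.ne' m2.ne'] at h8
      have e : (R : ℂ) * (((1 - ρ σ : ℝ) : ℂ) * H388SL.refl (σ α)) * starRingEnd ℂ (H388SL.refl (γ k)) =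
          ((R * (1 - ρ σ) : ℝ) : ℂ) * (H388SL.refl (σ α) * starRingEnd ℂ (H388SL.refl (γ k))) := by
        push_cast; ring
      rw [e]
      nlinarith
    have h9 := Finset.sum_le_sum h4
    rw [← h3, Finset.sum_sub_distrib, Finset.sum_sub_distrib, Finset.sum_const, Finset.card_univ,
      Fintype.card_fin, nsmul_eq_mul] at h9
    have h10 : Real.log ‖aeval (σ α) P‖ = Real.log ‖((P.leadingCoeff : ℤ) : ℂ)‖ +
        ∑ k, Real.log ‖σ α - γ k‖ := by
      rw [h1]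
      unfold GV
      rw [norm_mul, norm_prod, Real.log_mul hlc.ne'
        (Finset.prod_ne_zero_iff.mpr fun k _ => norm_ne_zero_iff.mpr (sub_ne_zero.mpr (hne σ k))),
        Real.log_prod (fun k _ => norm_ne_zero_iff.mpr (sub_ne_zero.mpr (hne σ k)))]
    have h11 : Real.log (MM P) = Real.log ‖((P.leadingCoeff : ℤ) : ℂ)‖ + ∑ k, Real.log (max 1 ‖γ k‖) := by
      have m2 : ∀ k, (max 1 ‖γ k‖ : ℝ) ≠ 0 := fun k => (lt_of_lt_of_le one_pos (le_max_left _ _)).ne'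
      rw [h2, Real.log_mul hlc.ne' (Finset.prod_ne_zero_iff.mpr fun k _ => m2 k),
        Real.log_prod (fun k _ => m2 k)]
    rw [h10, h11]
    linarith
  have h12 := Finset.sum_le_sum hterm
  refine le_trans ?_ h12
  have h13 : 0 ≤ ∑ σ : K →ₐ[ℚ] ℂ, Real.log ‖aeval (σ α) P‖ := by
    rw [← Real.log_prod (fun σ _ => norm_ne_zero_iff.mpr (hval σ))]
    apply Real.log_nonneg
    have h14 := one_le_prod_norm (isIntegral_aevalZ hα P) hPα
    simpa only [map_aevalZ] using h14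
  rw [Finset.sum_sub_distrib, Finset.sum_sub_distrib, Finset.sum_const, Finset.card_univ,
    nsmul_eq_mul, hcard, ← Finset.mul_sum, Finset.sum_add_distrib, Finset.sum_add_distrib,
    Finset.sum_const, Finset.card_univ, nsmul_eq_mul, hcard]
  have h15 : ∑ σ : K →ₐ[ℚ] ℂ, Real.log (max 1 ‖σ α‖) = lam α := rfl
  rw [h15]
  linarith

end lower

end Pool.Agent.H448.CY
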