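import Mathlib
import Pool.Agent.H448.CY.Pot

/-!
# The bound for a represented polynomial with a companion of Mahler measure one
-/

set_option autoImplicit false

open Finset Polynomial Module Metric Pool.Agent.H388SL Pool.Agent.Y947.DL Pool.Agent.Y947.DM
  Pool.Agent.Y947.DP Pool.Agent.R328

namespace Pool.Agent.H448.CY

lemma mp_comp_neg (F : ℤ[X]) : mp (F.comp (-X)) = mp F := by
  unfold mp
  have h1 : (fun z : ℂ => Real.posLog ‖aeval z (F.comp (-X))‖) =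
      fun z : ℂ => (fun w : ℂ => Real.posLog ‖aeval w F‖) ((-1) * z) := by
    ext z
    rw [aeval_comp]
    simp
  rw [h1]
  exact circleAverage_rot (φ := fun w : ℂ => Real.posLog ‖aeval w F‖) (ζ := -1) (by simp)

lemma arith {n t θ k m S E la s dC L LQ LW P1 : ℝ} (hn : 1 ≤ n) (ht : 1 ≤ t) (hθ : 1 ≤ θ) (hk : 0 ≤ k)
    (hS : S = n * s) (hs : 0 ≤ s) (hla0 : 0 ≤ la) (hla1 : la ≤ 1) (hdC : 0 ≤ dC)
    (hθm : dC + t * n = θ * (t * n)) (hm : m ≤ t * k)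
    (u1 : L + LQ + t * LW ≤ 3 * (4 * ((162 * θ + 1) * n) * m))
    (u2 : -(L + t * P1) ≤ 4 * ((162 * θ + 1) * n) * m)
    (u3 : -(4 * dC * (la + s + 1 / 16)) ≤ LQ)
    (u4 : -(n * (3 * la) + 5 * n * (la + s + 1 / 16)) ≤ LW)
    (hE : E ≤ -P1 + S) (hcost : 162 * θ * S ≤ 9 * E + n * (162 * θ) / 2) :
    E ≤ 5216 * (n * (θ * (1 + k))) ∧ θ * S ≤ 291 * (n * (θ * (1 + k))) := by
  have hn0 : 0 < n := by linarith
  have ht0 : 0 < t := by linarith
  have hS0 : 0 ≤ S := by rw [hS]; positivity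
  set η := la + s + 1 / 16 with hη
  have hη0 : 0 ≤ η := by rw [hη]; linarith
  have hnη : n * η ≤ 17 / 16 * n + S := by
    have h1 : n * η = n * la + S + n / 16 := by rw [hη, hS]; ring
    rw [h1]
    nlinarith
  have hlamη : la ≤ η := by rw [hη]; linarith
  have c0 : t * (-LW) ≤ t * (8 * n * η) := by
    apply mul_le_mul_of_nonneg_left _ ht0.le
    have : n * la ≤ n * η := mul_le_mul_of_nonneg_left hlamη hn0.le
    linarith
  have c1 : t * E ≤ 16 * ((162 * θ + 1) * n) * m + 8 * (θ * (t * n)) * η + t * S := by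
    have h1 : t * E ≤ t * (-P1 + S) := mul_le_mul_of_nonneg_left hE ht0.le
    have h3 : 8 * (θ * (t * n)) * η = 8 * dC * η + t * (8 * n * η) := by
      rw [← hθm]; ring
    have h4 : 0 ≤ dC * η := mul_nonneg hdC hη0
    rw [h3]
    linarith
  have c2 : 16 * ((162 * θ + 1) * n) * m ≤ 16 * ((162 * θ + 1) * n) * (t * k) :=
    mul_le_mul_of_nonneg_left hm (by positivity)
  have c3 : E ≤ 16 * (162 * θ + 1) * n * k + 8 * θ * (n * η) + S := by
    have h1 : t * E ≤ t * (16 * (162 * θ + 1) * n * k + 8 * θ * (n * η) + S) := by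
      calc t * E ≤ 16 * ((162 * θ + 1) * n) * (t * k) + 8 * (θ * (t * n)) * η + t * S := by linarith
        _ = _ := by ring
    exact le_of_mul_le_mul_left h1 ht0
  have hnk : 0 ≤ n * k := by positivity
  have hnB : n * (θ * (1 + k)) = n * θ + n * (θ * k) := by ring
  have hθS : S ≤ θ * S := by nlinarith
  have hnkθ : n * k ≤ n * (θ * k) := by
    apply mul_le_mul_of_nonneg_left _ hn0.le
    nlinarith
  have c4 : 8 * θ * (n * η) ≤ 17 / 2 * (n * θ) + 8 * (θ * S) := by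
    have h1 : 8 * θ * (n * η) ≤ 8 * θ * (17 / 16 * n + S) :=
      mul_le_mul_of_nonneg_left hnη (by linarith)
    linarith
  have c5 : 16 * (162 * θ + 1) * n * k = 2592 * (n * (θ * k)) + 16 * (n * k) := by ring
  have c6 : 162 * θ * S = 162 * (θ * S) := by ring
  have c7 : n * (162 * θ) / 2 = 81 * (n * θ) := by ring
  rw [c6, c7] at hcost
  have hnθ0 : 0 ≤ n * θ := by positivity
  have hnθk0 : 0 ≤ n * (θ * k) := by positivity
  rw [hnB]
  rw [c5] at c3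
  have c8 : E ≤ 5216 * (n * θ + n * (θ * k)) := by linarith
  exact ⟨c8, by linarith⟩

lemma arith2 {n θ k S E E' T l : ℝ} (hn : 1 ≤ n) (hθ : 1 ≤ θ) (hk : 0 ≤ k) (hS0 : 0 ≤ S) (hl : 0 ≤ l)
    (h1 : E ≤ 5216 * (n * (θ * (1 + k)))) (h2 : θ * S ≤ 291 * (n * (θ * (1 + k))))
    (hT : T ≤ (162 * θ + 1) * S) (hE' : E' ≤ E + (14 + 8 * l) * T + S) :
    E' ≤ n * (2 * 10 ^ 9 * (θ * (1 + k)) * (1 + l)) := by
  have hθS : S ≤ θ * S := by nlinarith
  have h3 : (162 * θ + 1) * S ≤ 47433 * (n * (θ * (1 + k))) := by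
    have h4 : (162 * θ + 1) * S = 162 * (θ * S) + S := by ring
    rw [h4]
    linarith
  have h4 : (14 + 8 * l) * T ≤ (14 + 8 * l) * (47433 * (n * (θ * (1 + k)))) :=
    mul_le_mul_of_nonneg_left (hT.trans h3) (by linarith)
  have h5 : 0 ≤ n * (θ * (1 + k)) := by positivity
  have h6 : 0 ≤ n * (θ * (1 + k)) * l := mul_nonneg h5 hl
  calc E' ≤ 5216 * (n * (θ * (1 + k))) +
        (14 + 8 * l) * (47433 * (n * (θ * (1 + k)))) +
        291 * (n * (θ * (1 + k))) := by linarith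
    _ ≤ 2 * 10 ^ 9 * (n * (θ * (1 + k))) + 2 * 10 ^ 9 * (n * (θ * (1 + k)) * l) := by
      linarith
    _ = _ := by ring

section Rep

variable {p : ℤ[X]} {K : Type} [Field K] [NumberField K] {α : K}

lemma conj_root (h : Rep p K α) {β : K} (hβ : aeval β p = 0) (σ : K →ₐ[ℚ] ℂ) :
    ∃ τ : K →ₐ[ℚ] ℂ, σ β = τ α := by
  have h1 := map_aevalZ σ p β
  rw [hβ, map_zero, h.aeval_eq] at h1
  obtain ⟨τ, _, hτ⟩ := Finset.prod_eq_zero_iff.mp h1.symm
  exact ⟨τ, sub_eq_zero.mp hτ⟩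

/-- `α` is not a zero of the transform of its minimal polynomial -/
lemma WW_val_ne (h : Rep p K α) (hc0 : |p.coeff 0| = 1) (hM : 1 < MM p) (h2 : CInj (α ^ 2)) :
    aeval α (WW p) ≠ 0 := by
  obtain ⟨σ⟩ : Nonempty (K →ₐ[ℚ] ℂ) := ⟨IsAlgClosed.lift⟩
  have hα0 := h.ne_zero hc0
  have hroot := h.not_root hM
  rw [WW_aeval]
  refine mul_ne_zero (mul_ne_zero ?_ ?_) ?_
  · intro h0
    obtain ⟨τ, hτ⟩ := conj_root h h0 σ
    have h3 : σ (α ^ 2) = τ (α ^ 2) := by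
      rw [map_pow, map_pow, ← hτ, map_neg, neg_sq]
    have h4 : σ = τ := h2 h3
    rw [← h4] at hτ
    have h5 : -α = α := σ.injective hτ
    have h6 : (2:K) * α = 0 := by linear_combination -h5
    rcases mul_eq_zero.mp h6 with h7 | h7
    · exact two_ne_zero h7
    · exact hα0 h7
  · intro h0
    obtain ⟨τ, hτ⟩ := conj_root h h0 σ
    have h1 : CInj (α ^ 1) := by rw [pow_one]; exact h.inj
    have h3 := conj_ne h.isInt hα0 hroot (by norm_num : (2:ℕ) ≠ 1) h2 h1 σ τ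
    rw [pow_one] at h3
    exact h3 hτ
  · intro h0
    obtain ⟨τ, hτ⟩ := conj_root h h0 σ
    have h1 : minpoly ℚ (σ (-α ^ 2)) = minpoly ℚ (-α ^ 2) := minpoly.algHom_eq σ σ.injective _
    have h3 : minpoly ℚ (τ α) = minpoly ℚ α := minpoly.algHom_eq τ τ.injective _
    rw [hτ, h3] at h1
    have h4 : CInj (-α ^ 2) := by
      intro σ τ hh
      apply h2
      have h5 : σ (-α ^ 2) = τ (-α ^ 2) := hh
      rw [map_neg, map_neg] at h5
      exact neg_injective h5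
    have h5 := sum_eq_of_minpoly_eq h.inj h4 h1
    have h6 : lam (-α ^ 2) = lam (α ^ 2) := by
      unfold lam
      refine Finset.sum_congr rfl fun σ _ => ?_
      rw [map_neg, norm_neg]
    rw [h6, lam_pow] at h5
    have h7 := lam_pos h.isInt hα0 hroot
    push_cast at h5
    linarith

lemma val_ne_of_MM (h : Rep p K α) (hM : 1 < MM p) {Q : ℤ[X]} (hQ : MM Q = 1) : aeval α Q ≠ 0 := by
  intro h0
  have h1 : p ∣ Q := by
    rw [← h.minp]
    exact minpoly.isIntegrallyClosed_dvd h.isInt h0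
  obtain ⟨r, rfl⟩ := h1
  have hr : r ≠ 0 := by
    rintro rfl
    rw [mul_zero] at hQ
    exact MM_ne_zero hQ.ge rfl
  have h2 := one_le_MM hr
  rw [MM_mul] at hQ
  nlinarith

lemma LP_rep (h : Rep p K α) (y : ℂ) :
    LP p y = -HH 0 (fun σ : K →ₐ[ℚ] ℂ => H388SL.refl (σ α)) y := by
  unfold LP HH
  have h1 : (p.map (Int.castRingHom ℂ)).roots =
      (Finset.univ : Finset (K →ₐ[ℚ] ℂ)).val.map (fun τ => τ α) := by
    rw [h.map_eq]
    have h2 : (∏ τ : K →ₐ[ℚ] ℂ, (X - C (τ α)) : ℂ[X]) =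
        (((Finset.univ : Finset (K →ₐ[ℚ] ℂ)).val.map (fun τ => τ α)).map (fun a => X - C a)).prod := by
      rw [Multiset.map_map]
      rfl
    rw [h2, roots_multiset_prod_X_sub_C]
  rw [h1, Multiset.map_map, zero_sub, neg_neg]
  rfl

/-- the bound for a represented polynomial -/
lemma rep_cyc {c : ℝ} (hc : FM c) (h : Rep p K α) (hc0 : |p.coeff 0| = 1) (hM : 1 < MM p)
    (hgood : ∀ q : ℕ, q.Prime → q ≠ 2 → Good α q) (h2 : CInj (α ^ 2)) {C0 : ℤ[X]} (hC : MM C0 = 1)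
    {t : ℕ} (ht : 0 < t) {k : ℝ} (hk0 : 0 ≤ k) (hk : mp (C0 * p ^ t) ≤ t * k) :
    c / ((((C0 * p ^ t).natDegree : ℝ) / (t * p.natDegree)) * (1 + k)) ^ 3 ≤ Real.log (MM p) := by
  have hn : 0 < finrank ℚ K := finrank_pos
  have hn1 : (1:ℝ) ≤ finrank ℚ K := by exact_mod_cast hn
  have hn0 : (0:ℝ) < finrank ℚ K := by linarith
  have ht1 : (1:ℝ) ≤ t := by exact_mod_cast ht
  have ht0 : (0:ℝ) < t := by linarith
  have hcard : Fintype.card (K →ₐ[ℚ] ℂ) = finrank ℚ K := AlgHom.card ℚ K ℂ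
  have hp0 : p ≠ 0 := MM_ne_zero hM.le
  have hC0 : C0 ≠ 0 := MM_ne_zero hC.ge
  have hpt0 : p ^ t ≠ 0 := pow_ne_zero _ hp0
  have hF0 : C0 * p ^ t ≠ 0 := mul_ne_zero hC0 hpt0
  have hdeg : ((C0 * p ^ t).natDegree : ℝ) = C0.natDegree + t * finrank ℚ K := by
    rw [natDegree_mul hC0 hpt0, natDegree_pow, ← h.fin]
    push_cast
    ring
  set F := C0 * p ^ t with hF
  rw [hdeg, ← h.fin]
  have hdC : (0:ℝ) ≤ C0.natDegree := Nat.cast_nonneg _
  set θ : ℝ := ((C0.natDegree : ℝ) + t * finrank ℚ K) / (t * finrank ℚ K) with hθ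
  have htn : 0 < (t:ℝ) * finrank ℚ K := by positivity
  have hθm : (C0.natDegree : ℝ) + t * finrank ℚ K = θ * (t * finrank ℚ K) := by
    rw [hθ]; field_simp
  have hθ1 : 1 ≤ θ := by
    rw [hθ, le_div_iff₀ htn]; linarith
  have hB1 : 1 ≤ θ * (1 + k) := by nlinarith
  rw [h.log_MM]
  apply hc K α h.isInt (h.ne_zero hc0) (h.not_root hM) h.inj (h.prod_norm hc0) hgood
    (θ * (1 + k)) hB1
  intro hlam q hq0 hq1
  have hlam0 := lam_nonneg α
  set n : ℝ := (finrank ℚ K : ℝ) with hndef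
  set b : (K →ₐ[ℚ] ℂ) → ℂ := fun σ => H388SL.refl (σ α) with hbdef
  have hb : ∀ σ, ‖b σ‖ ≤ 1 := fun σ => norm_refl_le _
  set A : ℝ := 162 * θ with hA
  have hA10 : 10 ≤ A := by rw [hA]; linarith
  have hne : Nonempty (K →ₐ[ℚ] ℂ) := ⟨IsAlgClosed.lift⟩
  obtain ⟨ρ, hρ, hD, hcost⟩ := choice hb (by rw [hcard]; exact hn) hA10
  rw [hcard, ← hndef] at hρ hD hcost
  have hρ' : ∀ j, 0 < ρ j ∧ ρ j ≤ 1 / 4 := fun j => (hρ j).2
  set S := n * ∑ j, ρ j with hS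
  have hsum0 : 0 ≤ ∑ j, ρ j := Finset.sum_nonneg fun j _ => (hρ' j).1.le
  have hS0 : 0 ≤ S := mul_nonneg hn0.le hsum0
  set r : ℝ := 1 / (16 * n) with hr
  have hr0 : 0 < r := by positivity
  have hr16 : r ≤ 1 / 16 := by
    rw [hr]; apply one_div_le_one_div_of_le (by norm_num); linarith
  have hnr : n * r = 1 / 16 := by rw [hr]; field_simp
  set R : ℝ := 1 - r with hR
  have hR0 : 0 < R := by linarith
  have hR1 : R < 1 := by linarith
  have hRρ : ∀ j, 1 - ρ j ≤ R := by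
    intro j
    have h1 := (hρ j).1
    have h3 : 1 / (4 * n) = 4 * r := by rw [hr]; field_simp; norm_num
    rw [h3] at h1
    linarith
  set x : (K →ₐ[ℚ] ℂ) → ℂ := fun i => ((1 - ρ i : ℝ) : ℂ) * b i with hx
  have hx1 : ∀ i, ‖x i‖ < 1 := by
    intro i
    have h1 := hρ' i
    simp only [hx]
    rw [norm_mul, Complex.norm_real, Real.norm_of_nonneg (by linarith)]
    nlinarith [hb i, norm_nonneg (b i)]
  have hxz : ∀ i j, x i * starRingEnd ℂ (x j) = zz b ρ i j := by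
    intro i j
    simp only [hx, zz]
    rw [map_mul, Complex.conj_ofReal]
    push_cast
    ring
  have hDx : ∀ i, ∑ j, PK (x i * starRingEnd ℂ (x j)) ≤ (A + 1) * n := by
    intro i
    simp only [hxz]
    exact hD i
  have hDn0 : 0 ≤ (A + 1) * n := by
    have : 0 ≤ A + 1 := by linarith
    positivity
  -- the potential of the transform
  obtain ⟨Q, hQ⟩ := dvd_WW C0 hC
  have hWC0 : WW C0 ≠ 0 := WW_ne hC0
  have hQ0 : Q ≠ 0 := by
    rintro rfl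
    rw [mul_zero] at hQ
    exact hWC0 hQ
  have hMQ : MM Q = 1 := by
    have h1 := MM_WW C0
    rw [hQ, MM_mul, hC, one_mul, one_pow] at h1
    exact h1
  have hdQ : (Q.natDegree : ℝ) = 4 * C0.natDegree := by
    have h1 := natDegree_WW hC0
    rw [hQ, natDegree_mul hC0 hQ0] at h1
    have h3 : Q.natDegree = 4 * C0.natDegree := by omega
    rw [h3]; push_cast; ring
  have hWp0 : WW p ≠ 0 := WW_ne hp0
  have hWpt0 : WW p ^ t ≠ 0 := pow_ne_zero _ hWp0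
  have hLPW : ∀ y, LP (WW F) y = LP C0 y + LP Q y + t * LP (WW p) y := by
    intro y
    rw [hF, WW_mul, WW_pow, hQ, LP_mul (mul_ne_zero hC0 hQ0) hWpt0, LP_mul hC0 hQ0, LP_pow hWp0]
  have hcF : F.comp (-X) ≠ 0 := comp_neg_ne hF0
  have heF : expand ℤ 2 F ≠ 0 := expand_ne hF0 (by norm_num)
  have hecF : expand ℤ 2 (F.comp (-X)) ≠ 0 := expand_ne hcF (by norm_num)
  have hLPW' : ∀ y, LP (WW F) y = LP (F.comp (-X)) y + LP (expand ℤ 2 F) y +
      LP (expand ℤ 2 (F.comp (-X))) y := by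
    intro y
    unfold WW
    rw [LP_mul (mul_ne_zero hcF heF) hecF, LP_mul hcF heF]
  have hLPF : ∀ y, LP F y = LP C0 y + t * LP p y := by
    intro y
    rw [hF, LP_mul hC0 hpt0, LP_pow hp0]
  set m := mp F with hm
  have hm0 : 0 ≤ m := mp_nonneg F
  have u1a := sum_LP_le hx1 hDn0 hDx hR0 hR1 hcF
  have u1b := sum_LP_le hx1 hDn0 hDx hR0 hR1 heF
  have u1c := sum_LP_le hx1 hDn0 hDx hR0 hR1 hecF
  rw [mp_comp_neg] at u1a
  rw [mp_expand (by norm_num)] at u1b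
  rw [mp_expand (by norm_num), mp_comp_neg] at u1c
  rw [← hm] at u1a u1b u1c
  have u2 := sum_neg_LP_le hx1 hDn0 hDx hR0 hR1 hF0
  rw [← hm] at u2
  have hsumW : ∑ j, LP (WW F) ((R:ℂ) * x j) = ∑ j, LP (F.comp (-X)) ((R:ℂ) * x j) +
      ∑ j, LP (expand ℤ 2 F) ((R:ℂ) * x j) + ∑ j, LP (expand ℤ 2 (F.comp (-X))) ((R:ℂ) * x j) := by
    simp only [hLPW', Finset.sum_add_distrib]
  have hsumW2 : ∑ j, LP (WW F) ((R:ℂ) * x j) = ∑ j, LP C0 ((R:ℂ) * x j) +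
      ∑ j, LP Q ((R:ℂ) * x j) + t * ∑ j, LP (WW p) ((R:ℂ) * x j) := by
    simp only [hLPW, Finset.sum_add_distrib, Finset.mul_sum]
  have hsumF : ∑ j, LP F ((R:ℂ) * x j) = ∑ j, LP C0 ((R:ℂ) * x j) + t * ∑ j, LP p ((R:ℂ) * x j) := by
    simp only [hLPF, Finset.sum_add_distrib, Finset.mul_sum]
  have u3 := sum_LP_ge h.isInt (val_ne_of_MM h hM hMQ) hρ' hR0 hR1
  have u4 := sum_LP_ge h.isInt (WW_val_ne h hc0 hM h2) hρ' hR0 hR1
  have h1R : 1 - R = r := by rw [hR]; ring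
  rw [hMQ, Real.log_one, hdQ, h1R, ← hndef, hnr] at u3
  have hdWp : ((WW p).natDegree : ℝ) = 5 * n := by
    rw [natDegree_WW hp0, ← h.fin, hndef]; push_cast; ring
  rw [MM_WW, Real.log_pow, hdWp, h1R, ← hndef, hnr, h.log_MM] at u4
  have e3 : ∑ σ : K →ₐ[ℚ] ℂ, LP Q ((R : ℂ) * (((1 - ρ σ : ℝ) : ℂ) * H388SL.refl (σ α))) =
      ∑ j, LP Q ((R:ℂ) * x j) := rfl
  have e4 : ∑ σ : K →ₐ[ℚ] ℂ, LP (WW p) ((R : ℂ) * (((1 - ρ σ : ℝ) : ℂ) * H388SL.refl (σ α))) =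
      ∑ j, LP (WW p) ((R:ℂ) * x j) := rfl
  rw [e3] at u3
  rw [e4] at u4
  set η : ℝ := lam α + ∑ σ, ρ σ + 1 / 16 with hη
  push_cast at u4
  -- energy
  have hEn := En_le_HH hb hρ' hR1 hRρ
  rw [hcard, ← hndef, ← hS] at hEn
  have e5 : ∑ j, HH 0 b ((R : ℂ) * (((1 - ρ j : ℝ) : ℂ) * b j)) = -∑ j, LP p ((R:ℂ) * x j) := by
    rw [← Finset.sum_neg_distrib]
    refine Finset.sum_congr rfl fun j _ => ?_
    rw [LP_rep h, neg_neg]
  rw [e5] at hEn
  set L := ∑ j, LP C0 ((R:ℂ) * x j) with hL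
  set P1 := ∑ j, LP p ((R:ℂ) * x j) with hP1
  set LQ := ∑ j, LP Q ((R:ℂ) * x j) with hLQ
  set LW := ∑ j, LP (WW p) ((R:ℂ) * x j) with hLW
  have hla1 : lam α ≤ 1 := hlam
  have v1 : L + LQ + t * LW ≤ 3 * (4 * ((162 * θ + 1) * n) * m) := by
    rw [← hsumW2, hsumW]
    linarith only [u1a, u1b, u1c]
  have v2 : -(L + t * P1) ≤ 4 * ((162 * θ + 1) * n) * m := by
    rw [← hsumF]; exact u2
  have v3 : -(4 * C0.natDegree * (lam α + ∑ σ, ρ σ + 1 / 16)) ≤ LQ := by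
    have e : n * 0 + 4 * (C0.natDegree : ℝ) * η = 4 * C0.natDegree * (lam α + ∑ σ, ρ σ + 1 / 16) := by
      rw [hη]; ring
    rw [← e]; exact u3
  have v4 : -(n * (3 * lam α) + 5 * n * (lam α + ∑ σ, ρ σ + 1 / 16)) ≤ LW := u4
  obtain ⟨c8, c9⟩ := arith hn1 ht1 hθ1 hk0 hS hsum0 hlam0 hla1 hdC hθm hk v1 v2 v3 v4 hEn hcost
  have hlogq : 0 ≤ Real.log (1 / q) := Real.log_nonneg (by rw [le_div_iff₀ hq0]; linarith only [hq1])
  refine ⟨fun σ => q * ρ σ, ?_, ?_, ?_⟩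
  · intro σ
    refine ⟨mul_pos hq0 (hρ' σ).1, ?_⟩
    have h1 := hρ' σ
    nlinarith only [h1.1, h1.2, hq0, hq1]
  · rw [← Finset.mul_sum]
    apply mul_le_mul_of_nonneg_left _ hq0.le
    have h1 : n * ∑ σ, ρ σ ≤ n * (63000000 * (θ * (1 + k))) := by
      rw [← hS]
      have h3 : 0 ≤ n * (θ * (1 + k)) := by positivity
      have h4 : S ≤ θ * S := by nlinarith only [hS0, hθ1]
      linarith only [c9, h3, h4]
    exact le_of_mul_le_mul_left h1 hn0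
  · rw [EE_eq_En]
    have h1 := En_scale hb hρ' hq0 hq1
    rw [hcard, ← hndef, ← hS] at h1
    have hSD : ∑ i, ρ i * Dd b ρ i ≤ (162 * θ + 1) * S := by
      rw [hS, Finset.mul_sum, Finset.mul_sum]
      apply Finset.sum_le_sum
      intro i _
      have h5 := mul_le_mul_of_nonneg_left (hD i) (hρ' i).1.le
      rw [hA] at h5
      linarith only [h5]
    exact arith2 hn1 hθ1 hk0 hS0 hlogq c8 c9 hSD h1

end Rep

end Pool.Agent.H448.CY
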