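import Mathlib
import Pool.Agent.H448.CY.Rep

/-!
# The bound for irreducible polynomials with a companion of Mahler measure one
-/

set_option autoImplicit false

open Finset Polynomial Module Metric Pool.Agent.H388SL Pool.Agent.Y947.DL Pool.Agent.Y947.DM
  Pool.Agent.Y947.DP Pool.Agent.R328

namespace Pool.Agent.H448.CY

/-- comparison of the means under the power transform -/
lemma mp_pow_le {q : ℕ} (hq : 0 < q) {C0 D g : ℤ[X]} (h : ∀ z : ℂ, ‖aeval (z ^ q) D‖ = NN q C0 z)
    (t : ℕ) : mp (D * g ^ (q * t)) ≤ q * mp (C0 * (expand ℤ q g) ^ t) := by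
  have hcard : (nthRootsFinset q (1:ℂ)).card = q := card_grid hq
  set F := C0 * (expand ℤ q g) ^ t with hF
  have hval : ∀ z : ℂ, ‖aeval (z ^ q) (D * g ^ (q * t))‖ = NN q F z := by
    intro z
    rw [map_mul, norm_mul, h, hF, NN_mul, NN_pow, NN_expand hq, map_pow, norm_pow, pow_mul]
  have hc := posLog_cont F
  unfold mp
  rw [← circleAverage_pow (posLog_cont (D * g ^ (q * t))) hq]
  have h1 : Real.circleAverage (fun z : ℂ => Real.posLog ‖aeval (z ^ q) (D * g ^ (q * t))‖) 0 1 ≤
      Real.circleAverage (fun z : ℂ => ∑ ζ ∈ nthRootsFinset q (1:ℂ),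
        (fun w : ℂ => Real.posLog ‖aeval w F‖) (ζ * z)) 0 1 := by
    apply Real.circleAverage_mono
    · apply ContinuousOn.circleIntegrable'
      exact ((posLog_cont (D * g ^ (q * t))).comp (continuous_pow q)).continuousOn
    · apply ContinuousOn.circleIntegrable'
      apply Continuous.continuousOn
      apply continuous_finsetSum
      intro ζ _
      exact hc.comp (continuous_const.mul continuous_id)
    · intro z _
      dsimp only
      rw [hval z]
      unfold NN
      exact Real.posLog_prod _ _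
  refine h1.trans (le_of_eq ?_)
  rw [Real.circleAverage_fun_sum]
  · have h2 : ∀ ζ ∈ nthRootsFinset q (1:ℂ),
        Real.circleAverage (fun z => (fun w : ℂ => Real.posLog ‖aeval w F‖) (ζ * z)) 0 1 =
        Real.circleAverage (fun w : ℂ => Real.posLog ‖aeval w F‖) 0 1 := fun ζ hζ =>
      circleAverage_rot (φ := fun w : ℂ => Real.posLog ‖aeval w F‖) (norm_of_mem_grid hq hζ)
    rw [Finset.sum_congr rfl h2, Finset.sum_const, hcard, nsmul_eq_mul]
  · intro ζ _
    apply ContinuousOn.circleIntegrable'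
    exact (hc.comp (continuous_const.mul continuous_id)).continuousOn

/-- monic units -/
theorem cyc_monic : ∃ c : ℝ, 0 < c ∧ ∀ f : ℤ[X], Irreducible f → f.Monic → |f.coeff 0| = 1 →
    1 < MM f → ∀ C0 : ℤ[X], MM C0 = 1 → ∀ t : ℕ, 0 < t → ∀ k : ℝ, 0 ≤ k → mp (C0 * f ^ t) ≤ t * k →
    c / ((((C0 * f ^ t).natDegree : ℝ) / (t * f.natDegree)) * (1 + k)) ^ 3 ≤ Real.log (MM f) := by
  obtain ⟨c, hc0, hcm⟩ := field_main3
  refine ⟨c, hc0, ?_⟩
  have ind : ∀ n : ℕ, ∀ f : ℤ[X], f.natDegree = n → Irreducible f → f.Monic → |f.coeff 0| = 1 →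
      1 < MM f → ∀ C0 : ℤ[X], MM C0 = 1 → ∀ t : ℕ, 0 < t → ∀ k : ℝ, 0 ≤ k →
      mp (C0 * f ^ t) ≤ t * k →
      c / ((((C0 * f ^ t).natDegree : ℝ) / (t * f.natDegree)) * (1 + k)) ^ 3 ≤ Real.log (MM f) := by
    intro n
    induction n using Nat.strong_induction_on with
    | _ n ih =>
      intro f hfn hf hm hf0 hM C0 hC0 t ht k hk0 hk
      by_cases hexp : ∃ q : ℕ, q.Prime ∧ ∃ g : ℤ[X], f = expand ℤ q g
      · obtain ⟨q, hq, g, hg⟩ := hexp
        subst hg
        have hgirr : Irreducible g := of_irreducible_expand hq.ne_zero hf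
        have hgm : g.Monic := by
          have h1 := hm
          rw [Monic, leadingCoeff_expand hq.pos] at h1
          exact h1
        have hMM : MM (expand ℤ q g) = MM g := MM_expand hq.pos g
        have hg0 : |g.coeff 0| = 1 := by
          rw [coeff_expand hq.pos, if_pos (dvd_zero q), Nat.zero_div] at hf0
          exact hf0
        have hg1 : g.natDegree ≠ 0 := natDegree_ne (by rw [← hMM]; exact hM) hgm
        have hgd : g.natDegree < n := by
          rw [← hfn, natDegree_expand]
          have := hq.two_le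
          have h2 : 0 < g.natDegree := Nat.pos_of_ne_zero hg1
          nlinarith
        obtain ⟨D, hD1, hD2, hD3⟩ := exists_pow hq C0 hC0
        have hmp := mp_pow_le hq.pos (g := g) hD3 t
        have h1 := ih g.natDegree hgd g rfl hgirr hgm hg0 (by rw [← hMM]; exact hM) D hD1 (q * t)
          (Nat.mul_pos hq.pos ht) k hk0 (by
            refine hmp.trans ?_
            push_cast
            rw [mul_assoc]
            exact mul_le_mul_of_nonneg_left hk (Nat.cast_nonneg _))
        have hC00 : C0 ≠ 0 := MM_ne_zero hC0.ge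
        have hD0 : D ≠ 0 := MM_ne_zero hD1.ge
        have hg00 : g ≠ 0 := hgm.ne_zero
        have hdeg : (D * g ^ (q * t)).natDegree = (C0 * (expand ℤ q g) ^ t).natDegree := by
          rw [natDegree_mul hD0 (pow_ne_zero _ hg00), natDegree_mul hC00 (pow_ne_zero _ hm.ne_zero),
            natDegree_pow, natDegree_pow, natDegree_expand, hD2]
          ring
        rw [hMM, natDegree_expand]
        have e : ((q * t : ℕ) : ℝ) * (g.natDegree : ℝ) = (t : ℝ) * ((g.natDegree * q : ℕ) : ℝ) := by
          push_cast; ring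
        rw [e, hdeg] at h1
        exact h1
      · push Not at hexp
        obtain ⟨z, hz⟩ := exists_zero hM hm
        obtain ⟨hNF, hrep⟩ := exists_rep f hf hm z hz
        apply rep_cyc (K := IntermediateField.adjoin ℚ {z})
          (α := IntermediateField.AdjoinSimple.gen ℚ z) hcm hrep hf0 hM _ _ hC0 ht hk0 hk
        · intro q hq hq2
          exact good_of_witness (hrep.ne_zero hf0) hrep.inj hq hq2 (hrep.witness hq (hexp q hq))
        · exact not_bad_two hrep.inj (hrep.witness Nat.prime_two (hexp 2 Nat.prime_two))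
  intro f hf hm hf0 hM
  exact ind _ f rfl hf hm hf0 hM

/-- the general irreducible case -/
theorem cyc_main : ∃ c : ℝ, 0 < c ∧ ∀ (f C0 : ℤ[X]) (t : ℕ), Irreducible f → 1 < MM f →
    MM C0 = 1 → 0 < t →
    c / ((((C0 * f ^ t).natDegree : ℝ) / (t * f.natDegree)) * (1 + mp (C0 * f ^ t) / t)) ^ 3 ≤
      Real.log (MM f) := by
  obtain ⟨c1, hc1, hc⟩ := cyc_monic
  have hlog2 : 0 < Real.log 2 := Real.log_pos (by norm_num)
  set c := min c1 (Real.log 2) with hcdef
  have hc0 : 0 < c := lt_min (by positivity) hlog2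
  refine ⟨c, hc0, ?_⟩
  intro f C0 t hf hM hC0 ht
  have ht0 : (0:ℝ) < t := by exact_mod_cast ht
  have hf0 : f ≠ 0 := hf.ne_zero
  have hC00 : C0 ≠ 0 := MM_ne_zero hC0.ge
  by_cases hd0 : f.natDegree = 0
  · rw [hd0, Nat.cast_zero, mul_zero, div_zero, zero_mul]
    have : (0:ℝ) ^ 3 = 0 := by norm_num
    rw [this, div_zero]
    exact Real.log_nonneg hM.le
  have hfd : (0:ℝ) < f.natDegree := by exact_mod_cast Nat.pos_of_ne_zero hd0
  have hmp := mp_nonneg (C0 * f ^ t)
  set W : ℝ := (((C0 * f ^ t).natDegree : ℝ) / (t * f.natDegree)) * (1 + mp (C0 * f ^ t) / t) with hW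
  have hW1 : 1 ≤ W := by
    rw [hW]
    apply one_le_mul_of_one_le_of_one_le
    · rw [le_div_iff₀ (by positivity), natDegree_mul hC00 (pow_ne_zero _ hf0), natDegree_pow]
      push_cast
      have : (0:ℝ) ≤ C0.natDegree := Nat.cast_nonneg _
      linarith
    · have : 0 ≤ mp (C0 * f ^ t) / t := by positivity
      linarith
  have hcmp : c / W ^ 3 ≤ c1 / W ^ 3 :=
    div_le_div_of_nonneg_right (min_le_left _ _) (by positivity)
  by_cases hbig : 2 ≤ MM f
  · have h1 : c ≤ Real.log 2 := min_le_right _ _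
    have h2 : Real.log 2 ≤ Real.log (MM f) := Real.log_le_log (by norm_num) hbig
    have h3 : c / W ^ 3 ≤ c := by
      apply div_le_self hc0.le
      exact one_le_pow₀ hW1
    linarith
  push Not at hbig
  have hlc : |f.leadingCoeff| = 1 := by
    have h1 : 1 ≤ |f.leadingCoeff| := Int.one_le_abs (leadingCoeff_ne_zero.mpr hf0)
    have h3 := leadingCoeff_le_MM f
    by_contra hne
    have h2 : 2 ≤ |f.leadingCoeff| := by omega
    have h4 : (2:ℝ) ≤ |(f.leadingCoeff : ℝ)| := by exact_mod_cast h2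
    linarith
  have hcc : |f.coeff 0| = 1 := by
    have h0 : f.coeff 0 ≠ 0 := by
      intro h
      have hdvd : (X : ℤ[X]) ∣ f := X_dvd_iff.mpr h
      obtain ⟨g, hg⟩ := hdvd
      rcases hf.isUnit_or_isUnit hg with h1 | h1
      · exact Polynomial.not_isUnit_X h1
      · have h2 : MM f = 1 := by
          rw [hg, MM_mul]
          obtain ⟨r, hr, hrg⟩ := Polynomial.isUnit_iff.mp h1
          have h4 : MM g = 1 := by
            rw [← hrg, MM, Polynomial.map_C, mahlerMeasure_const, eq_intCast, Complex.norm_intCast]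
            rcases Int.isUnit_iff.mp hr with h5 | h5 <;> simp [h5]
          rw [MM_X, h4, one_mul]
        linarith
    have h1 : 1 ≤ |f.coeff 0| := Int.one_le_abs h0
    have h3 := coeff_zero_le_MM f
    by_contra hne
    have h2 : 2 ≤ |f.coeff 0| := by omega
    have h4 : (2:ℝ) ≤ |(f.coeff 0 : ℝ)| := by exact_mod_cast h2
    linarith
  have hk : mp (C0 * f ^ t) ≤ t * (mp (C0 * f ^ t) / t) := by
    rw [mul_div_cancel₀ _ ht0.ne']
  rcases (abs_eq (by norm_num : (0:ℤ) ≤ 1)).mp hlc with h | h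
  · exact hcmp.trans (hc f hf h hcc hM C0 hC0 t ht _ (by positivity) hk)
  · obtain ⟨e1, e2⟩ : mp (C0 * (-f) ^ t) = mp (C0 * f ^ t) ∧
        (C0 * (-f) ^ t).natDegree = (C0 * f ^ t).natDegree := by
      rcases Nat.even_or_odd t with he | ho
      · rw [he.neg_pow]
        exact ⟨rfl, rfl⟩
      · rw [ho.neg_pow, mul_neg, mp_neg, natDegree_neg]
        exact ⟨rfl, rfl⟩
    have h1 := hc (-f) (by simpa using (irreducible_units_mul (-1 : ℤ[X]ˣ)).mpr hf) (by
        rw [Monic, leadingCoeff_neg, h]; norm_num) (by rw [coeff_neg, abs_neg]; exact hcc)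
      (by rw [MM_neg]; exact hM) C0 hC0 t ht (mp (C0 * f ^ t) / t) (by positivity) (by rw [e1]; exact hk)
    rw [MM_neg, e2, natDegree_neg] at h1
    exact hcmp.trans h1

end Pool.Agent.H448.CY
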